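import Pool.Agent.W912.EC.Defs2
import Pool.Agent.H622R2.Ckt.CIR
import Pool.Agent.H622R2.Exp.A6
import Pool.Agent.W900.CH.EFar

/-!
# The construction: infinitely many stages
-/

set_option autoImplicit false

namespace Pool.Agent.W912.EC

open Pool.Agent.NPC Pool.Agent.H620R2.Gauge Pool.Agent.H622R2.Exp Pool.Agent.H622R2.Ckt
open Pool.Agent.W900.CH
open MeasureTheory Filter

/-- the result of all stages -/
theorem stages2 (hS : S_STEP2) (M : ℕ → Alg) (q : ℕ → Polynomial ℕ) {g : ℕ → ℝ} {cs : ℕ → ℝ}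
    (hcs : ∀ j, 0 < cs j)
    (hg : ∀ j : ℕ, ∃ᶠ n : ℕ in atTop, ∀ m ≥ n, (n : ℝ) ^ cs j < g m) (O : Oracle) :
    ∃ (A : Oracle) (n N : ℕ → ℕ) (w : ℕ → List Bool), Close g O A ∧ (∀ j, j ≤ n j) ∧
      (∀ j, ((N j : ℝ) + 2) ≤ 2 ^ ((1 / cs j + 1 / ((j : ℝ) + 1)) * n j)) ∧
      (∀ j, ∀ e ≤ j, ∀ x : List Bool, x.length = n j → (cds j e (w j) x).length = N j) ∧
      ∀ j, ∀ e ≤ j, ∀ x : List Bool, x.length = n j →
        (A (cds j e (w j) x) = true ↔
          (M e).run A x (2 ^ (q e).eval x.length) [] = some [true]) := by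
  have H := fun j : ℕ => hS M q g (cs j) (hcs j) (hg j) j
  choose fn fN ft fB fw fA h1 h2 h3 h4 h5 h6 h7 h8 h9 h10 using H
  let st : ℕ → Oracle × ℕ × ℕ := fun j => Nat.rec (O, 0, 0)
    (fun j p => (fA j p.1 p.2.1 p.2.2, fB j p.1 p.2.1 p.2.2, p.2.2 + ft j p.1 p.2.1 p.2.2)) j
  let Aj : ℕ → Oracle := fun j => (st j).1
  let Bj : ℕ → ℕ := fun j => (st j).2.1
  let Tj : ℕ → ℕ := fun j => (st j).2.2
  let nj : ℕ → ℕ := fun j => fn j (Aj j) (Bj j) (Tj j)
  let Nj : ℕ → ℕ := fun j => fN j (Aj j) (Bj j) (Tj j)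
  let tj : ℕ → ℕ := fun j => ft j (Aj j) (Bj j) (Tj j)
  let wj : ℕ → List Bool := fun j => fw j (Aj j) (Bj j) (Tj j)
  have A0 : Aj 0 = O := rfl
  have T0 : Tj 0 = 0 := rfl
  have TS : ∀ j, Tj (j + 1) = Tj j + tj j := fun j => rfl
  have g1 : ∀ j, Bj j < Nj j := fun j => h1 j (Aj j) (Bj j) (Tj j)
  have g2 : ∀ j, Nj j ≤ Bj (j + 1) := fun j => h2 j (Aj j) (Bj j) (Tj j)
  have g3 : ∀ j, j ≤ nj j := fun j => h3 j (Aj j) (Bj j) (Tj j)
  have g4 : ∀ j, ((Nj j : ℝ) + 2) ≤ 2 ^ ((1 / cs j + 1 / ((j : ℝ) + 1)) * nj j) :=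
    fun j => h4 j (Aj j) (Bj j) (Tj j)
  have g5 : ∀ j, ∀ y : List Bool, y.length ≠ Nj j → Aj (j + 1) y = Aj j y :=
    fun j => h5 j (Aj j) (Bj j) (Tj j)
  have g6 : ∀ j, Set.Finite {y | Aj (j + 1) y ≠ Aj j y} := fun j => h6 j (Aj j) (Bj j) (Tj j)
  have g7 : ∀ j, Set.ncard {y | Aj (j + 1) y ≠ Aj j y} ≤ tj j :=
    fun j => h7 j (Aj j) (Bj j) (Tj j)
  have g8 : ∀ j, ∀ m ≥ Nj j, ((Tj j + tj j : ℕ) : ℝ) ≤ g m := fun j => h8 j (Aj j) (Bj j) (Tj j)
  have g9 : ∀ j, ∀ e ≤ j, ∀ x : List Bool, x.length = nj j →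
    (cds j e (wj j) x).length = Nj j := fun j => h9 j (Aj j) (Bj j) (Tj j)
  have g10 : ∀ j, ∀ A'' : Oracle, (∀ y : List Bool, y.length ≤ Bj (j + 1) →
      A'' y = Aj (j + 1) y) → ∀ e ≤ j, ∀ x : List Bool, x.length = nj j →
        (A'' (cds j e (wj j) x) = true ↔
          (M e).run A'' x (2 ^ (q e).eval x.length) [] = some [true]) :=
    fun j => h10 j (Aj j) (Bj j) (Tj j)
  clear_value Aj Bj Tj nj Nj tj wj
  -- monotonicity
  have hBm : StrictMono Bj := strictMono_nat_of_lt_succ fun j => (g1 j).trans_le (g2 j)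
  have hNm : StrictMono Nj := strictMono_nat_of_lt_succ fun j => (g2 j).trans_lt (g1 (j + 1))
  have hBid : ∀ j, j ≤ Bj j := fun j => hBm.id_le j
  have hNid : ∀ j, j ≤ Nj j := fun j => hNm.id_le j
  -- agreement
  have agr : ∀ j i, j ≤ i → ∀ y : List Bool, y.length ≤ Bj j → Aj i y = Aj j y := by
    intro j i hij
    induction i, hij using Nat.le_induction with
    | base => intro y _; rfl
    | succ i hi ih =>
      intro y hy
      rw [g5 i y (by have := g1 i; have := hBm.monotone hi; omega), ih y hy]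
  let As : Oracle := fun y => Aj y.length y
  have hAs : ∀ j, ∀ y : List Bool, y.length ≤ Bj j → As y = Aj j y := by
    intro j y hy
    show Aj y.length y = Aj j y
    rcases le_total y.length j with h | h
    · exact (agr _ _ h y (hBid _)).symm
    · exact agr _ _ h y hy
  have hAs2 : ∀ j, ∀ y : List Bool, y.length < Nj j → As y = Aj j y := by
    intro j y hy
    rw [hAs (j + 1) y (by have := g2 j; omega), g5 j y (by omega)]
  have hdiff : ∀ j, Set.Finite {y | Aj j y ≠ O y} ∧ Set.ncard {y | Aj j y ≠ O y} ≤ Tj j := by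
    intro j
    induction j with
    | zero =>
      rw [A0, T0]
      simp
    | succ j ih =>
      have hsub : {y | Aj (j + 1) y ≠ O y} ⊆ {y | Aj (j + 1) y ≠ Aj j y} ∪ {y | Aj j y ≠ O y} := by
        intro y hy
        rw [Set.mem_union]
        by_contra hc
        push Not at hc
        obtain ⟨hc1, hc2⟩ := hc
        apply hy
        have e1 : Aj (j + 1) y = Aj j y := by
          by_contra h'; exact hc1 h'
        have e2 : Aj j y = O y := by
          by_contra h'; exact hc2 h'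
        rw [e1, e2]
      refine ⟨((g6 j).union ih.1).subset hsub, ?_⟩
      refine (Set.ncard_le_ncard hsub ((g6 j).union ih.1)).trans ?_
      refine (Set.ncard_union_le _ _).trans ?_
      have := g7 j
      have := ih.2
      rw [TS]
      omega
  refine ⟨As, nj, Nj, wj, ?_, g3, g4, g9, fun j => g10 j As (hAs (j + 1))⟩
  unfold Close
  filter_upwards [eventually_ge_atTop (Nj 0)] with m hm
  obtain ⟨j, hj1, hj2⟩ : ∃ j, Nj j ≤ m ∧ m < Nj (j + 1) := by
    classical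
    refine ⟨Nat.findGreatest (fun j => Nj j ≤ m) m, ?_, ?_⟩
    · exact Nat.findGreatest_spec (P := fun j => Nj j ≤ m) (Nat.zero_le m) hm
    · by_contra hc
      push Not at hc
      have h11 : Nat.findGreatest (fun j => Nj j ≤ m) m + 1 ≤ m := (hNid _).trans hc
      have h12 := Nat.le_findGreatest (P := fun j => Nj j ≤ m) h11 hc
      omega
  have h11 : dist O As m ≤ Tj (j + 1) := by
    refine le_trans ?_ (hdiff (j + 1)).2
    unfold Pool.Agent.W900.CH.dist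
    refine Set.ncard_le_ncard ?_ (hdiff (j + 1)).1
    rintro x ⟨hx1, hx2⟩
    show Aj (j + 1) x ≠ O x
    rw [← hAs2 (j + 1) x (by omega)]
    exact hx2
  have h12 := g8 j m hj1
  rw [TS] at h11
  exact (Nat.cast_le.2 h11).trans h12

theorem up2 (hS : S_STEP2) {g : ℕ → ℝ} {cs : ℕ → ℝ} (hcs : ∀ j, 0 < cs j)
    (hg : ∀ j : ℕ, ∃ᶠ n : ℕ in atTop, ∀ m ≥ n, (n : ℝ) ^ cs j < g m) (O : Oracle) :
    ∃ A : Oracle, Close g O A ∧ ∀ L, InTime Pol A L → ∀ ε : ℝ,
      (∀ᶠ j : ℕ in atTop, 1 / cs j + 1 / ((j : ℝ) + 1) ≤ ε) →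
      ∃ᶠ n : ℕ in atTop, Small A L (2 ^ (ε * n)) n := by
  have hc : Countable (Polynomial ℕ) := N1.countable_poly
  have hne : Nonempty (Alg × Polynomial ℕ) := ⟨(A6.alg 0 0, 0)⟩
  obtain ⟨F, hF⟩ := exists_surjective_nat (Alg × Polynomial ℕ)
  obtain ⟨A, n, N, w, hA, h1, h2, h3, h4⟩ :=
    stages2 hS (fun e => (F e).1) (fun e => (F e).2) hcs hg O
  refine ⟨A, hA, fun L hL ε hε => ?_⟩
  obtain ⟨M, q, -, hL⟩ := hL
  obtain ⟨e, he⟩ := hF (M, q)
  rw [frequently_atTop]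
  intro a
  obtain ⟨k, hk⟩ := eventually_atTop.1 hε
  obtain ⟨j, hj⟩ : ∃ j, j = a + e + k := ⟨_, rfl⟩
  refine ⟨n j, by have := h1 j; omega, ?_⟩
  obtain ⟨C, hC1, hC2⟩ := exists_circuit (List.replicate e true ++ [false])
    (w j ++ List.replicate (j - e) false) (n j)
  have hsz : C.size = N j + 1 := by
    have h5 := h3 j e (by omega) (List.replicate (n j) false) (by simp)
    unfold cds at h5
    rw [List.length_append, List.length_append, List.length_replicate (n := n j)] at h5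
    rw [hC1, ← h5]
  refine ⟨C, ?_, fun x hx => ?_⟩
  · rw [hsz]
    have h6 : ((N j : ℝ) + 2) ≤ 2 ^ (ε * n j) := by
      refine (h2 j).trans ?_
      apply Real.rpow_le_rpow_of_exponent_le (by norm_num)
      exact mul_le_mul_of_nonneg_right (hk j (by omega)) (Nat.cast_nonneg _)
    push_cast
    linarith
  · obtain ⟨z, hz1, hz2⟩ := hL x
    have h5 := h4 j e (by omega) x hx
    simp only [he] at h5
    rw [hC2 A x hx]
    unfold cds at h5
    rw [h5, hz1, hz2]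
    simp

/-- the case of one exponent -/
theorem up_c (hS : S_STEP2) {g : ℕ → ℝ} {c : ℝ} (hc : 0 < c)
    (hg : ¬ ∀ᶠ n : ℕ in atTop, ∃ m ≥ n, g m ≤ (n : ℝ) ^ c) (O : Oracle) :
    ∃ A : Oracle, Close g O A ∧ ∀ L, InTime Pol A L → ∀ ε : ℝ, 1 / c < ε →
      ∃ᶠ n : ℕ in atTop, Small A L (2 ^ (ε * n)) n := by
  have hg' : ∃ᶠ n : ℕ in atTop, ∀ m ≥ n, (n : ℝ) ^ c < g m := by
    rw [not_eventually] at hg
    refine hg.mono fun n hn m hm => ?_
    push Not at hn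
    exact hn m hm
  obtain ⟨A, h1, h2⟩ := up2 hS (cs := fun _ => c) (fun _ => hc) (fun _ => hg') O
  refine ⟨A, h1, fun L hL ε hε => h2 L hL ε ?_⟩
  have h3 : Tendsto (fun j : ℕ => 1 / c + 1 / ((j : ℝ) + 1)) atTop (nhds (1 / c + 0)) :=
    tendsto_const_nhds.add tendsto_one_div_add_atTop_nhds_zero_nat
  rw [add_zero] at h3
  exact (h3.eventually (gt_mem_nhds hε)).mono fun j hj => le_of_lt hj

/-- the case of all exponents -/
theorem up_all (hS : S_STEP2) {g : ℕ → ℝ}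
    (hg : ∀ c : ℝ, ¬ ∀ᶠ n : ℕ in atTop, ∃ m ≥ n, g m ≤ (n : ℝ) ^ c) (O : Oracle) :
    ∃ A : Oracle, Close g O A ∧ ∀ L, InTime Pol A L → ∀ ε : ℝ, 0 < ε →
      ∃ᶠ n : ℕ in atTop, Small A L (2 ^ (ε * n)) n := by
  have hg' : ∀ j : ℕ, ∃ᶠ n : ℕ in atTop, ∀ m ≥ n, (n : ℝ) ^ ((j : ℝ) + 1) < g m := by
    intro j
    have h := hg ((j : ℝ) + 1)
    rw [not_eventually] at h
    refine h.mono fun n hn m hm => ?_
    push Not at hn
    exact hn m hm
  obtain ⟨A, h1, h2⟩ := up2 hS (cs := fun j => (j : ℝ) + 1) (fun j => by positivity) hg' O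
  refine ⟨A, h1, fun L hL ε hε => h2 L hL ε ?_⟩
  have h3 : Tendsto (fun j : ℕ => 1 / ((j : ℝ) + 1) + 1 / ((j : ℝ) + 1)) atTop
      (nhds (0 + 0)) :=
    tendsto_one_div_add_atTop_nhds_zero_nat.add tendsto_one_div_add_atTop_nhds_zero_nat
  rw [add_zero] at h3
  exact (h3.eventually (gt_mem_nhds hε)).mono fun j hj => le_of_lt hj

end Pool.Agent.W912.EC
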