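import Pool.Agent.W912.EC.Defs2
import Pool.Agent.W73.LG.Grow
import Pool.Agent.W110.LG.CNT3

/-!
# Counting the bad oracles
-/

set_option autoImplicit false

namespace Pool.Agent.W912.EC.Cnt2

open Pool.Agent.NPC Pool.Agent.H620R2.Gauge Pool.Agent.H622R2.Exp Pool.Agent.H622R2.Ckt
open Pool.Agent.W900.CH Pool.Agent.W912.EC Pool.Agent.W73.LG

/-- evaluation of a circuit on a list of inputs, with a continuation -/
def aTc {α : Type} (C : Circuit) : List (List Bool) → List Bool → (List Bool → QT α) → QT α
  | [], acc, c => c acc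
  | x :: xs, acc, c => gT x C.gates [] (fun v => aTc C xs (acc ++ [C.out.val x v]) c)

theorem aTc_run {α : Type} (A : Oracle) (C : Circuit) (c : List Bool → QT α)
    (xs : List (List Bool)) : ∀ acc : List Bool, (aTc C xs acc c).run A =
      (c (acc ++ xs.map (C.eval A))).run A := by
  induction xs with
  | nil => intro acc; rw [List.map_nil, List.append_nil]; rfl
  | cons x xs ih =>
    intro acc
    show (gT x C.gates [] (fun v => aTc C xs (acc ++ [C.out.val x v]) c)).run A = _
    rw [gT_run, ih, List.map_cons, List.append_assoc]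
    rfl

theorem aTc_depth {α : Type} (C : Circuit) (c : List Bool → QT α) (T : ℕ)
    (hc : ∀ v, (c v).depth ≤ T) (xs : List (List Bool)) :
    ∀ acc : List Bool, (aTc C xs acc c).depth ≤ xs.length * C.gates.length + T := by
  induction xs with
  | nil => intro acc; rw [List.length_nil, Nat.zero_mul, Nat.zero_add]; exact hc acc
  | cons x xs ih =>
    intro acc
    show (gT x C.gates [] (fun v => aTc C xs (acc ++ [C.out.val x v]) c)).depth ≤ _
    refine (gT_depth x _ (xs.length * C.gates.length + T) (fun v => ih _) C.gates []).trans ?_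
    rw [List.length_cons]
    exact le_of_eq (by ring)

/-- ask a list of strings -/
def kT : List (List Bool) → List Bool → QT (List Bool)
  | [], acc => QT.ret acc
  | y :: ys, acc => QT.ask y (fun b => kT ys (acc ++ [b]))

theorem kT_run (A : Oracle) (ys : List (List Bool)) : ∀ acc : List Bool,
    (kT ys acc).run A = acc ++ ys.map A := by
  induction ys with
  | nil => intro acc; rw [List.map_nil, List.append_nil]; rfl
  | cons y ys ih =>
    intro acc
    show (kT ys (acc ++ [A y])).run A = _
    rw [ih, List.map_cons, List.append_assoc]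
    rfl

theorem kT_depth (ys : List (List Bool)) : ∀ acc : List Bool, (kT ys acc).depth ≤ ys.length := by
  induction ys with
  | nil => intro acc; exact le_refl _
  | cons y ys ih =>
    intro acc
    show max ((kT ys (acc ++ [true])).depth) ((kT ys (acc ++ [false])).depth) + 1 ≤ _
    rw [List.length_cons]
    exact Nat.succ_le_succ (max_le (ih _) (ih _))

theorem tst2_inj {a b n : ℕ} {x x' : List Bool} (hx : x.length = n) (hx' : x'.length = n)
    (h : tst2 a b x = tst2 a b x') : x = x' := by
  unfold tst2 at h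
  rw [hx, hx'] at h
  have h1 := List.append_cancel_left h
  exact (List.cons.inj h1).2

/-- `y` is a test string -/
def IsT (a b n : ℕ) (y : List Bool) : Prop := ∃ x : Fin n → Bool, y = tst2 a b (List.ofFn x)

/-- `j` is the number of a test string -/
def IsI (a b n j : ℕ) : Prop := ∃ x : Fin n → Bool, idx (tst2 a b (List.ofFn x)) = j

theorem IsI_inj {a b n : ℕ} {x x' : Fin n → Bool}
    (h : idx (tst2 a b (List.ofFn x)) = idx (tst2 a b (List.ofFn x'))) : x = x' := by
  have h1 : tst2 a b (List.ofFn x) = tst2 a b (List.ofFn x') := by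
    rw [← str_idx (tst2 a b (List.ofFn x)), h, str_idx]
  exact List.ofFn_injective (tst2_inj (n := n) (by simp) (by simp) h1)

open Classical in
/-- the test positions are cleared -/
noncomputable def clv (a b n N : ℕ) (v : Fin N → Bool) : Fin N → Bool := fun j =>
  if IsI a b n j then false else v j

open Classical in
/-- the test positions are overwritten -/
noncomputable def ovv (a b n N : ℕ) (u : Fin N → Bool) (z : (Fin n → Bool) → Bool) :
    Fin N → Bool := fun j => if h : IsI a b n j then z h.choose else u j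

/-- the bits at the test positions -/
noncomputable def zv (a b n N : ℕ) (v : Fin N → Bool) : (Fin n → Bool) → Bool := fun x =>
  orc N v (tst2 a b (List.ofFn x))

variable {a b n N : ℕ}

theorem ovv_pos (u : Fin N → Bool) (z : (Fin n → Bool) → Bool) (x : Fin n → Bool)
    (hx : idx (tst2 a b (List.ofFn x)) < N) :
    ovv a b n N u z ⟨idx (tst2 a b (List.ofFn x)), hx⟩ = z x := by
  have h : IsI a b n (idx (tst2 a b (List.ofFn x))) := ⟨x, rfl⟩
  unfold ovv
  rw [dif_pos h]
  rw [IsI_inj h.choose_spec]

theorem ovv_neg (u : Fin N → Bool) (z : (Fin n → Bool) → Bool) (j : Fin N)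
    (hj : ¬ IsI a b n j) : ovv a b n N u z j = u j := by
  unfold ovv
  rw [dif_neg hj]

open Classical in
theorem card_mul (hN : ∀ x : Fin n → Bool, idx (tst2 a b (List.ofFn x)) < N) :
    ((Finset.univ : Finset (Fin N → Bool)).image (clv a b n N)).card * 2 ^ 2 ^ n ≤ 2 ^ N := by
  have h1 : (((Finset.univ : Finset (Fin N → Bool)).image (clv a b n N)) ×ˢ
      (Finset.univ : Finset ((Fin n → Bool) → Bool))).card ≤
      (Finset.univ : Finset (Fin N → Bool)).card := by
    refine Finset.card_le_card_of_injOn (fun p => ovv a b n N p.1 p.2)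
      (fun p _ => Finset.mem_coe.2 (Finset.mem_univ _)) ?_
    rintro ⟨u, z⟩ hp ⟨u', z'⟩ hp' h
    rw [Finset.mem_coe, Finset.mem_product] at hp hp'
    obtain ⟨w, -, hw⟩ := Finset.mem_image.1 hp.1
    obtain ⟨w', -, hw'⟩ := Finset.mem_image.1 hp'.1
    simp only at h hw hw'
    have hz : z = z' := by
      funext x
      have h2 := congrFun h ⟨idx (tst2 a b (List.ofFn x)), hN x⟩
      rw [ovv_pos, ovv_pos] at h2
      exact h2
    have hu : u = u' := by
      funext j
      by_cases hj : IsI a b n j
      · rw [← hw, ← hw']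
        unfold clv
        rw [if_pos hj, if_pos hj]
      · have h2 := congrFun h j
        rw [ovv_neg _ _ _ hj, ovv_neg _ _ _ hj] at h2
        exact h2
    rw [hz, hu]
  rw [Finset.card_product, Finset.card_univ, Finset.card_univ, Fintype.card_fun,
    Fintype.card_fun, Fintype.card_fun, Fintype.card_bool, Fintype.card_fin, Fintype.card_fin] at h1
  exact h1

theorem clv_zv {v v' : Fin N → Bool} (hN : ∀ x : Fin n → Bool, idx (tst2 a b (List.ofFn x)) < N)
    (h1 : clv a b n N v = clv a b n N v') (h2 : zv a b n N v = zv a b n N v') : v = v' := by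
  funext j
  by_cases hj : IsI a b n j
  · obtain ⟨x, hx⟩ := hj
    have h3 := congrFun h2 x
    unfold zv orc at h3
    rw [dif_pos (hN x), dif_pos (hN x)] at h3
    have h4 : (⟨idx (tst2 a b (List.ofFn x)), hN x⟩ : Fin N) = j := Fin.ext hx
    rw [h4] at h3
    exact h3
  · have h3 := congrFun h1 j
    unfold clv at h3
    rw [if_neg hj, if_neg hj] at h3
    exact h3

/-- all inputs -/
noncomputable def allX (n : ℕ) : List (List Bool) :=
  (Finset.univ : Finset (Fin n → Bool)).toList.map List.ofFn

theorem length_allX (n : ℕ) : (allX n).length = 2 ^ n := by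
  unfold allX
  rw [List.length_map, Finset.length_toList, Finset.card_univ, Fintype.card_fun,
    Fintype.card_bool, Fintype.card_fin]

/-- the computation for one circuit -/
noncomputable def tree (a b n : ℕ) (C : Circuit) : QT (List Bool) :=
  aTc C (allX n) [] (fun l => kT ((allX n).map (tst2 a b)) l)

theorem tree_run (A : Oracle) (C : Circuit) : (tree a b n C).run A =
    (allX n).map (C.eval A) ++ ((allX n).map (tst2 a b)).map A := by
  unfold tree
  rw [aTc_run, kT_run, List.nil_append]

theorem tree_depth {C : Circuit} {k : ℕ} (hC : C.size ≤ k) :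
    (tree a b n C).depth ≤ 2 ^ n * (k + 1) := by
  unfold tree
  refine (aTc_depth C _ (2 ^ n) (fun v => ?_) _ _).trans ?_
  · refine (kT_depth _ _).trans ?_
    rw [List.length_map, length_allX]
  · rw [length_allX, Nat.mul_succ]
    exact Nat.add_le_add_right (Nat.mul_le_mul_left _ ((length_le_size C).trans hC)) _

open Classical in
/-- the oracle that tells the changes at the test strings -/
noncomputable def A0 (a b n N : ℕ) (v v' : Fin N → Bool) : Oracle := fun y =>
  if IsT a b n y then xor (orc N v' y) (orc N v y) else orc N v' y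

open Classical in
theorem near (v v' : Fin N → Bool) {s : ℕ} (h : (df v v').card ≤ s) :
    {y | A0 a b n N v v' y ≠ orc N (clv a b n N v) y}.Finite ∧
      {y | A0 a b n N v v' y ≠ orc N (clv a b n N v) y}.ncard ≤ s := by
  have hsub : {y | A0 a b n N v v' y ≠ orc N (clv a b n N v) y} ⊆
      (fun j : Fin N => str (j : ℕ)) '' (↑(df v v') : Set (Fin N)) := by
    intro y hy
    have hy' : A0 a b n N v v' y ≠ orc N (clv a b n N v) y := hy
    unfold A0 orc clv at hy'
    by_cases hyN : idx y < N
    · refine ⟨⟨idx y, hyN⟩, Finset.mem_coe.2 (mem_df.2 ?_), str_idx y⟩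
      rw [dif_pos hyN, dif_pos hyN, dif_pos hyN] at hy'
      by_cases hT : IsT a b n y
      · rw [if_pos hT] at hy'
        obtain ⟨x, hx⟩ := hT
        have h5 : IsI a b n ((⟨idx y, hyN⟩ : Fin N) : ℕ) := ⟨x, by rw [← hx]⟩
        rw [if_pos h5] at hy'
        intro h6
        rw [h6] at hy'
        simp at hy'
      · rw [if_neg hT] at hy'
        have h5 : ¬ IsI a b n ((⟨idx y, hyN⟩ : Fin N) : ℕ) := by
          rintro ⟨x, hx⟩
          apply hT
          refine ⟨x, ?_⟩
          rw [← str_idx y, ← str_idx (tst2 a b (List.ofFn x))]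
          exact congrArg str hx.symm
        rw [if_neg h5] at hy'
        exact fun h6 => hy' h6.symm
    · rw [dif_neg hyN, dif_neg hyN, dif_neg hyN] at hy'
      simp at hy'
  have hfin : ((fun j : Fin N => str (j : ℕ)) '' (↑(df v v') : Set (Fin N))).Finite :=
    (Finset.finite_toSet _).image _
  refine ⟨hfin.subset hsub, ?_⟩
  refine (Set.ncard_le_ncard hsub hfin).trans ?_
  refine (Set.ncard_image_le (Finset.finite_toSet _)).trans ?_
  rw [Set.ncard_coe_finset]
  exact h

open Classical in
/-- the number of the bad assignments with a given part outside the test positions -/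
theorem fibre {k s : ℕ} (hk : ∀ x : List Bool, x.length = n → k ≤ (tst2 a b x).length)
    (hN : ∀ x : Fin n → Bool, idx (tst2 a b (List.ofFn x)) < N) (u : Fin N → Bool) :
    ((Finset.univ : Finset (Fin N → Bool)).filter (fun v => clv a b n N v = u ∧
      ∃ v' : Fin N → Bool, (df v v').card ≤ s ∧ EvC2 a b n k (orc N v'))).card ≤
      nC n k * (2 ^ n * (k + 1) + 1) ^ s := by
  obtain ⟨F, hF, hFC⟩ := exists_circuits n k
  have hb : ∀ C : Circuit, ∃ G : Finset (List Bool), C.size ≤ k →
      G.card ≤ (2 ^ n * (k + 1) + 1) ^ s ∧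
      ∀ A : Oracle, {y | A y ≠ orc N u y}.Finite → {y | A y ≠ orc N u y}.ncard ≤ s →
        (tree a b n C).run A ∈ G := by
    intro C
    by_cases hC : C.size ≤ k
    · obtain ⟨G, hG, hG2⟩ := QT.count (orc N u) (tree a b n C) _ s ∅ (tree_depth hC)
      refine ⟨G, fun _ => ⟨hG, fun A h1 h2 => hG2 A (fun y hy => absurd hy (Set.notMem_empty y))
        (by rw [Set.sdiff_empty]; exact h1) (by rw [Set.sdiff_empty]; exact h2)⟩⟩
    · exact ⟨∅, fun h => absurd h hC⟩
  choose G hG using hb
  -- decoding
  let dec : List Bool → ((Fin n → Bool) → Bool) := fun l =>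
    if h : ∃ z : (Fin n → Bool) → Bool, ∃ f g : List Bool → Bool,
        l = (allX n).map f ++ (allX n).map g ∧ ∀ x, z x = xor (f (List.ofFn x)) (g (List.ofFn x))
      then h.choose else fun _ => false
  have hdec : ∀ (l : List Bool) (z : (Fin n → Bool) → Bool) (f g : List Bool → Bool),
      l = (allX n).map f ++ (allX n).map g → (∀ x, z x = xor (f (List.ofFn x)) (g (List.ofFn x))) →
      dec l = z := by
    intro l z f g h1 h2
    have hex : ∃ z : (Fin n → Bool) → Bool, ∃ f g : List Bool → Bool,
        l = (allX n).map f ++ (allX n).map g ∧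
          ∀ x, z x = xor (f (List.ofFn x)) (g (List.ofFn x)) := ⟨z, f, g, h1, h2⟩
    have h3 : dec l = hex.choose := dif_pos hex
    rw [h3]
    obtain ⟨f', g', h4, h5⟩ := hex.choose_spec
    rw [h1] at h4
    obtain ⟨h6, h7⟩ := List.append_inj h4 (by simp)
    funext x
    rw [h5 x, h2 x]
    have hx : List.ofFn x ∈ allX n := by
      unfold allX
      rw [List.mem_map]
      exact ⟨x, Finset.mem_toList.2 (Finset.mem_univ _), rfl⟩
    rw [(List.map_inj_left.1 h6) _ hx, (List.map_inj_left.1 h7) _ hx]
  -- the fibre injects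
  have h1 : ((Finset.univ : Finset (Fin N → Bool)).filter (fun v => clv a b n N v = u ∧
      ∃ v' : Fin N → Bool, (df v v').card ≤ s ∧ EvC2 a b n k (orc N v'))).card ≤
      (((F.filter fun C => C.size ≤ k).biUnion G).image dec).card := by
    refine Finset.card_le_card_of_injOn (zv a b n N) ?_ ?_
    · intro v hv
      rw [Finset.mem_coe, Finset.mem_filter] at hv
      obtain ⟨-, hv1, v', hv2, C₀, hC₀, hC₁⟩ := hv
      obtain ⟨C, hC, hs, he⟩ := hFC C₀ hC₀
      have hA := near (a := a) (b := b) (n := n) v v' hv2
      rw [hv1] at hA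
      have hrun := (hG C hs).2 (A0 a b n N v v') hA.1 hA.2
      rw [Finset.mem_coe, Finset.mem_image]
      refine ⟨_, Finset.mem_biUnion.2 ⟨C, Finset.mem_filter.2 ⟨hC, hs⟩, hrun⟩, ?_⟩
      rw [tree_run, List.map_map]
      refine hdec _ _ (C.eval (A0 a b n N v v')) (A0 a b n N v v' ∘ tst2 a b) rfl ?_
      intro x
      have hx : (List.ofFn x).length = n := List.length_ofFn
      have h2 : C.eval (A0 a b n N v v') (List.ofFn x) = orc N v' (tst2 a b (List.ofFn x)) := by
        have h3 : C.eval (orc N v') (List.ofFn x) = C.eval (A0 a b n N v v') (List.ofFn x) := by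
          apply eval_local
          intro y hy
          unfold A0
          rw [if_neg]
          rintro ⟨x', rfl⟩
          have := hk (List.ofFn x') (by simp)
          omega
        rw [← h3, he (orc N v') _ hx]
        have h4 := hC₁ (List.ofFn x) hx
        revert h4
        cases orc N v' (tst2 a b (List.ofFn x)) <;> cases C₀.eval (orc N v') (List.ofFn x) <;> simp
      have h5 : (A0 a b n N v v' ∘ tst2 a b) (List.ofFn x) =
          xor (orc N v' (tst2 a b (List.ofFn x))) (orc N v (tst2 a b (List.ofFn x))) := by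
        show A0 a b n N v v' (tst2 a b (List.ofFn x)) = _
        unfold A0
        rw [if_pos ⟨x, rfl⟩]
      rw [h2, h5]
      unfold zv
      cases orc N v' (tst2 a b (List.ofFn x)) <;> cases orc N v (tst2 a b (List.ofFn x)) <;> rfl
    · intro v hv v' hv' h
      rw [Finset.mem_coe, Finset.mem_filter] at hv hv'
      exact clv_zv hN (hv.2.1.trans hv'.2.1.symm) h
  refine h1.trans (Finset.card_image_le.trans ?_)
  refine (Finset.card_biUnion_le_card_mul _ _ ((2 ^ n * (k + 1) + 1) ^ s)
    (fun C hC => (hG C (Finset.mem_filter.1 hC).2).1)).trans ?_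
  exact Nat.mul_le_mul_right _ ((Finset.card_le_card (Finset.filter_subset _ _)).trans hF)

theorem cnt2 : S_CNT2 := by
  classical
  intro a b n k N s hk hN
  have hN' : ∀ x : Fin n → Bool, idx (tst2 a b (List.ofFn x)) < N := fun x =>
    hN _ List.length_ofFn
  have h1 : ((Finset.univ : Finset (Fin N → Bool)).filter (fun v =>
      ∃ v' : Fin N → Bool, (df v v').card ≤ s ∧ EvC2 a b n k (orc N v'))).card ≤
      ((Finset.univ : Finset (Fin N → Bool)).image (clv a b n N)).card *
        (nC n k * (2 ^ n * (k + 1) + 1) ^ s) := by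
    have h2 : ((Finset.univ : Finset (Fin N → Bool)).filter (fun v =>
        ∃ v' : Fin N → Bool, (df v v').card ≤ s ∧ EvC2 a b n k (orc N v'))) ⊆
        ((Finset.univ : Finset (Fin N → Bool)).image (clv a b n N)).biUnion (fun u =>
          (Finset.univ : Finset (Fin N → Bool)).filter (fun v => clv a b n N v = u ∧
            ∃ v' : Fin N → Bool, (df v v').card ≤ s ∧ EvC2 a b n k (orc N v'))) := by
      intro v hv
      rw [Finset.mem_filter] at hv
      rw [Finset.mem_biUnion]
      exact ⟨clv a b n N v, Finset.mem_image.2 ⟨v, Finset.mem_univ _, rfl⟩,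
        Finset.mem_filter.2 ⟨Finset.mem_univ _, rfl, hv.2⟩⟩
    refine (Finset.card_le_card h2).trans ?_
    exact Finset.card_biUnion_le_card_mul _ _ _ (fun u _ => fibre hk hN' u)
  calc _ ≤ ((Finset.univ : Finset (Fin N → Bool)).image (clv a b n N)).card *
        (nC n k * (2 ^ n * (k + 1) + 1) ^ s) * 2 ^ 2 ^ n := Nat.mul_le_mul_right _ h1
    _ = (((Finset.univ : Finset (Fin N → Bool)).image (clv a b n N)).card * 2 ^ 2 ^ n) *
        ((2 ^ n * (k + 1) + 1) ^ s * nC n k) := by ring
    _ ≤ 2 ^ N * ((2 ^ n * (k + 1) + 1) ^ s * nC n k) := Nat.mul_le_mul_right _ (card_mul hN')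
    _ = (2 ^ n * (k + 1) + 1) ^ s * nC n k * 2 ^ N := by ring

end Pool.Agent.W912.EC.Cnt2
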