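import Pool.Agent.H622R2.Ckt.Base
import Pool.Agent.W900.CH.PLev
import Pool.Agent.W900.CH.Comb

/-!
# Changing few strings of a random oracle, and circuits for exponential time: definitions and parts
-/

set_option autoImplicit false

namespace Pool.Agent.W912.EC

open Pool.Agent.NPC Pool.Agent.H620R2.Gauge Pool.Agent.H622R2.Exp Pool.Agent.H622R2.Ckt
open Pool.Agent.W900.CH
open MeasureTheory Filter

/-- the string that belongs to the input `x` -/
def tst (b : ℕ) (x : List Bool) : List Bool :=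
  List.replicate (2 ^ (x.length / b)) true ++ false :: x

/-- the hard language -/
def LL (b : ℕ) (A : Oracle) : Set (List Bool) := {x | A (tst b x) = true}

/-- it is in exponential time -/
def S_TIME : Prop := ∀ (b : ℕ) (A : Oracle), 0 < b → InTime Lin A (LL b A)

/-- some circuit of size at most `k` decides the hard language on the inputs of length `n` -/
def EvC (b n k : ℕ) (A : Oracle) : Prop :=
  ∃ C : Circuit, C.size ≤ k ∧ ∀ x : List Bool, x.length = n →
    (A (tst b x) = true ↔ C.eval A x = true)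

open Classical in
/-- counting -/
def S_CNT : Prop := ∀ (b n k N s : ℕ), (∀ x : List Bool, x.length = n → k ≤ (tst b x).length) →
  (∀ x : List Bool, x.length = n → idx (tst b x) < N) →
  ((Finset.univ : Finset (Fin N → Bool)).filter (fun a =>
    ∃ a' : Fin N → Bool, (df a a').card ≤ s ∧ EvC b n k (orc N a'))).card * 2 ^ 2 ^ n ≤
    (N + 1) ^ s * nC n k * 2 ^ N

/-- numbers -/
def S_NUM : Prop := ∀ c : ℕ, ∃ n₀ : ℕ, ∀ n ≥ n₀, ∀ K l : ℕ, K = 2 ^ (n / (c + 3)) →
  l = K + n + 1 → (2 ^ (l + 1) + 1) ^ (l ^ c) * nC n K * 2 ^ n ≤ 2 ^ 2 ^ n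

/-- the code string of stage `j` for the algorithm number `e`, the input `x` and the key `w` -/
def cds (j e : ℕ) (w x : List Bool) : List Bool :=
  (List.replicate e true ++ [false]) ++ x ++ (w ++ List.replicate (j - e) false)

/-- one stage of the construction: the algorithms with numbers `e ≤ j` get codes for their results
on the inputs of length `n`; the strings of length `N` are used -/
def S_STEP : Prop := ∀ (M : ℕ → Alg) (q : ℕ → Polynomial ℕ) (g : ℕ → ℝ),
  (∀ c : ℕ, ∃ᶠ n : ℕ in atTop, ∀ m ≥ n, (n : ℝ) ^ c < g m) →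
  ∀ (j : ℕ) (A : Oracle) (B T : ℕ), ∃ (n N t B' : ℕ) (w : List Bool) (A' : Oracle),
    B < N ∧ N ≤ B' ∧ j ≤ n ∧ (N + 2) ^ (j + 1) ≤ 2 ^ n ∧
    (∀ y : List Bool, y.length ≠ N → A' y = A y) ∧
    Set.Finite {y | A' y ≠ A y} ∧ Set.ncard {y | A' y ≠ A y} ≤ t ∧
    (∀ m ≥ N, ((T + t : ℕ) : ℝ) ≤ g m) ∧
    (∀ e ≤ j, ∀ x : List Bool, x.length = n → (cds j e w x).length = N) ∧
    ∀ A'' : Oracle, (∀ y : List Bool, y.length ≤ B' → A'' y = A' y) →
      ∀ e ≤ j, ∀ x : List Bool, x.length = n →
        (A'' (cds j e w x) = true ↔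
          (M e).run A'' x (2 ^ (q e).eval x.length) [] = some [true])

end Pool.Agent.W912.EC
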