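import Pool.Agent.W912.EC.Defs

/-!
# Changing few strings of a random oracle, and circuits for exponential time: sharp exponents
-/

set_option autoImplicit false

namespace Pool.Agent.W912.EC

open Pool.Agent.NPC Pool.Agent.H620R2.Gauge Pool.Agent.H622R2.Exp Pool.Agent.H622R2.Ckt
open Pool.Agent.W900.CH
open MeasureTheory Filter

/-- the string that belongs to the input `x` -/
def tst2 (a b : ℕ) (x : List Bool) : List Bool :=
  List.replicate (2 ^ (a * x.length / b)) true ++ false :: x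

/-- the hard language -/
def LL2 (a b : ℕ) (A : Oracle) : Set (List Bool) := {x | A (tst2 a b x) = true}

/-- it is in exponential time -/
def S_TIME2 : Prop := ∀ (a b : ℕ) (A : Oracle), 0 < b → InTime Lin A (LL2 a b A)

/-- some circuit of size at most `k` decides the hard language on the inputs of length `n` -/
def EvC2 (a b n k : ℕ) (A : Oracle) : Prop :=
  ∃ C : Circuit, C.size ≤ k ∧ ∀ x : List Bool, x.length = n →
    (A (tst2 a b x) = true ↔ C.eval A x = true)

open Classical in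
/-- counting; only changes at queried strings and at test strings matter -/
def S_CNT2 : Prop := ∀ (a b n k N s : ℕ), (∀ x : List Bool, x.length = n →
    k ≤ (tst2 a b x).length) →
  (∀ x : List Bool, x.length = n → idx (tst2 a b x) < N) →
  ((Finset.univ : Finset (Fin N → Bool)).filter (fun v =>
    ∃ v' : Fin N → Bool, (df v v').card ≤ s ∧ EvC2 a b n k (orc N v'))).card * 2 ^ 2 ^ n ≤
    (2 ^ n * (k + 1) + 1) ^ s * nC n k * 2 ^ N

/-- numbers -/
def S_NUM2 : Prop := ∀ (a b : ℕ) (c : ℝ), 0 < b → 1 ≤ c → (a : ℝ) * c < b →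
  ∃ n₀ : ℕ, ∀ n ≥ n₀, ∀ K s : ℕ, K = 2 ^ (a * n / b) → (s : ℝ) ≤ ((K + n + 1 : ℕ) : ℝ) ^ c →
    (2 ^ n * (K + 1) + 1) ^ s * nC n K * 2 ^ n ≤ 2 ^ 2 ^ n

/-- one stage of the construction, for an arbitrary exponent `c`: the algorithms with numbers
`e ≤ j` get codes for their results on the inputs of length `n`; strings of length `N` are used -/
def S_STEP2 : Prop := ∀ (M : ℕ → Alg) (q : ℕ → Polynomial ℕ) (g : ℕ → ℝ) (c : ℝ), 0 < c →
  (∃ᶠ n : ℕ in atTop, ∀ m ≥ n, (n : ℝ) ^ c < g m) →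
  ∀ (j : ℕ) (A : Oracle) (B T : ℕ), ∃ (n N t B' : ℕ) (w : List Bool) (A' : Oracle),
    B < N ∧ N ≤ B' ∧ j ≤ n ∧ ((N : ℝ) + 2) ≤ 2 ^ ((1 / c + 1 / ((j : ℝ) + 1)) * n) ∧
    (∀ y : List Bool, y.length ≠ N → A' y = A y) ∧
    Set.Finite {y | A' y ≠ A y} ∧ Set.ncard {y | A' y ≠ A y} ≤ t ∧
    (∀ m ≥ N, ((T + t : ℕ) : ℝ) ≤ g m) ∧
    (∀ e ≤ j, ∀ x : List Bool, x.length = n → (cds j e w x).length = N) ∧
    ∀ A'' : Oracle, (∀ y : List Bool, y.length ≤ B' → A'' y = A' y) →
      ∀ e ≤ j, ∀ x : List Bool, x.length = n →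
        (A'' (cds j e w x) = true ↔
          (M e).run A'' x (2 ^ (q e).eval x.length) [] = some [true])

end Pool.Agent.W912.EC
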