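import Pool.Agent.W912.EC.Defs2
import Pool.Agent.H54.RQ.C1a
import Pool.Agent.H622R2.Ckt.LOC
import Pool.Agent.W900.CH.EFar
import Pool.Agent.H673R2.OneOne.Perm

/-!
# The lower bound
-/

set_option autoImplicit false

namespace Pool.Agent.W912.EC

open Pool.Agent.NPC Pool.Agent.H620R2.Gauge Pool.Agent.H622R2.Exp Pool.Agent.H622R2.Ckt
open Pool.Agent.W900.CH
open MeasureTheory Filter
open Pool.Agent.H628R3.RO (randomOracle)

/-- length of the padding -/
def K2 (a b n : ℕ) : ℕ := 2 ^ (a * n / b)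

/-- length of the test strings -/
def l2 (a b n : ℕ) : ℕ := K2 a b n + n + 1

/-- the number of changes -/
noncomputable def s2 (a b n : ℕ) (c : ℝ) : ℕ := ⌊((l2 a b n : ℕ) : ℝ) ^ c⌋₊

theorem length_tst2 {a b n : ℕ} {x : List Bool} (hx : x.length = n) :
    (tst2 a b x).length = l2 a b n := by
  unfold tst2 l2 K2
  rw [List.length_append, List.length_replicate, List.length_cons, hx]
  ring

open Classical in
/-- the bad event -/
def Bad2 (a b : ℕ) (c : ℝ) (n : ℕ) : Set Oracle :=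
  {O | ∃ v' : Fin (2 ^ (l2 a b n + 1) - 1) → Bool,
    (df (pre (2 ^ (l2 a b n + 1) - 1) O) v').card ≤ s2 a b n c ∧
    EvC2 a b n (K2 a b n) (orc (2 ^ (l2 a b n + 1) - 1) v')}

open Classical in
theorem prob_bad2 (hC : S_CNT2) {a b n : ℕ} {c : ℝ}
    (h : (2 ^ n * (K2 a b n + 1) + 1) ^ (s2 a b n c) * nC n (K2 a b n) * 2 ^ n ≤ 2 ^ 2 ^ n) :
    randomOracle.real (Bad2 a b c n) ≤ (1 / 2) ^ n := by
  set N := 2 ^ (l2 a b n + 1) - 1 with hN
  have h1 := (Pool.Agent.H54.RQ.main (fun i : Fin N => str i) (fun i j h => Fin.ext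
    (str_injective h)) (fun v : Fin N → Bool => ∃ v' : Fin N → Bool,
      (df v v').card ≤ s2 a b n c ∧ EvC2 a b n (K2 a b n) (orc N v'))).2
  have h2 : Bad2 a b c n = {A : List Bool → Bool | ∃ v' : Fin N → Bool,
      (df (fun i : Fin N => A (str i)) v').card ≤ s2 a b n c ∧
      EvC2 a b n (K2 a b n) (orc N v')} := rfl
  rw [h2, h1, Finset.sum_boole]
  have h3 := hC a b n (K2 a b n) N (s2 a b n c) (fun x hx => by
    rw [length_tst2 hx]
    unfold l2
    omega) (fun x hx => by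
    have h4 := idx_lt (tst2 a b x)
    rw [length_tst2 hx] at h4
    omega)
  have h5 : (Finset.univ.filter (fun v : Fin N → Bool => ∃ v' : Fin N → Bool,
      (df v v').card ≤ s2 a b n c ∧ EvC2 a b n (K2 a b n) (orc N v'))).card * 2 ^ n ≤ 2 ^ N := by
    have h6 : (Finset.univ.filter (fun v : Fin N → Bool => ∃ v' : Fin N → Bool,
      (df v v').card ≤ s2 a b n c ∧ EvC2 a b n (K2 a b n) (orc N v'))).card * 2 ^ n * 2 ^ 2 ^ n ≤
        2 ^ N * 2 ^ 2 ^ n := by
      calc _ = ((Finset.univ.filter (fun v : Fin N → Bool => ∃ v' : Fin N → Bool,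
            (df v v').card ≤ s2 a b n c ∧ EvC2 a b n (K2 a b n) (orc N v'))).card *
              2 ^ 2 ^ n) * 2 ^ n := by ring
        _ ≤ ((2 ^ n * (K2 a b n + 1) + 1) ^ (s2 a b n c) * nC n (K2 a b n) * 2 ^ N) * 2 ^ n :=
            Nat.mul_le_mul_right _ h3
        _ = 2 ^ N * ((2 ^ n * (K2 a b n + 1) + 1) ^ (s2 a b n c) * nC n (K2 a b n) * 2 ^ n) := by
            ring
        _ ≤ 2 ^ N * 2 ^ 2 ^ n := Nat.mul_le_mul_left _ h
    exact Nat.le_of_mul_le_mul_right h6 (by positivity)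
  rw [div_le_iff₀ (by positivity), one_div, inv_pow, inv_mul_eq_div, le_div_iff₀ (by positivity)]
  exact_mod_cast h5

theorem ae_bad2 (hC : S_CNT2) (hN : S_NUM2) {a b : ℕ} {c : ℝ} (hb : 0 < b) (hc : 1 ≤ c)
    (hac : (a : ℝ) * c < b) :
    ∀ᵐ O ∂randomOracle, ∀ᶠ n : ℕ in atTop, O ∉ Bad2 a b c n := by
  obtain ⟨n₀, hn₀⟩ := hN a b c hb hc hac
  have h1 := Pool.Agent.H673R2.OneOne.borel_cantelli (fun n => if n₀ ≤ n then Bad2 a b c n else ∅)
    (C := 2) (fun m => by
      have h2 : ∀ i ∈ Finset.range m, Pool.Agent.H628R3.RO.prob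
          (if n₀ ≤ i then Bad2 a b c i else ∅) ≤ (1 / 2 : ℝ) ^ i := by
        intro i _
        split_ifs with h
        · refine prob_bad2 hC (hn₀ i h _ _ rfl ?_)
          unfold s2
          exact Nat.floor_le (by positivity)
        · unfold Pool.Agent.H628R3.RO.prob
          rw [measureReal_empty]
          positivity
      refine (Finset.sum_le_sum h2).trans ?_
      have h3 : HasSum (fun i : ℕ => (1 / 2 : ℝ) ^ i) 2 := hasSum_geometric_two
      exact sum_le_hasSum _ (fun i _ => by positivity) h3)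
  rw [ae_iff]
  refine measure_mono_null ?_ h1
  intro O hO
  rw [Set.mem_ofPred_eq] at hO ⊢
  rw [not_eventually] at hO
  refine (hO.and_eventually (eventually_ge_atTop n₀)).mono ?_
  rintro n ⟨h2, h3⟩
  rw [if_pos h3]
  exact not_not.1 h2

/-- no small circuits for the language with the parameters `a`, `b` -/
theorem low_ab {g : ℕ → ℝ} {a b : ℕ} {c : ℝ}
    (hg : ∀ᶠ n : ℕ in atTop, ∃ m ≥ n, g m ≤ (n : ℝ) ^ c) {O A : Oracle}
    (hO : ∀ᶠ n : ℕ in atTop, O ∉ Bad2 a b c n) (hA : Close g O A) :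
    ∀ᶠ n : ℕ in atTop, ∀ C : Circuit, C.size ≤ K2 a b n →
      ¬ ∀ x : List Bool, x.length = n → (x ∈ LL2 a b A ↔ C.eval A x = true) := by
  have h1 : ∀ᶠ m : ℕ in atTop, dist O A m ≤ ⌊(m : ℝ) ^ c⌋₊ := by
    obtain ⟨m₀, hm₀⟩ := eventually_atTop.1 hA
    filter_upwards [hg, eventually_ge_atTop m₀] with m h2 h3
    obtain ⟨m', h4, h5⟩ := h2
    have h6 := hm₀ m' (h3.trans h4)
    have h7 : (dist O A m : ℝ) ≤ dist O A m' := by exact_mod_cast dist_mono O A h4
    exact Nat.le_floor (h7.trans (h6.trans h5))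
  have hl : Tendsto (fun n => l2 a b n) atTop atTop := by
    refine tendsto_atTop_mono (fun n => ?_) tendsto_id
    unfold l2
    simp only [id]
    omega
  filter_upwards [hO, hl.eventually h1] with n h2 h3
  intro C hsize hC2
  apply h2
  have hagree : ∀ y : List Bool, y.length ≤ l2 a b n →
      orc (2 ^ (l2 a b n + 1) - 1) (pre (2 ^ (l2 a b n + 1) - 1) A) y = A y := by
    intro y hy
    apply orc_pre
    have h5 := idx_lt y
    have h6 : 2 ^ (y.length + 1) ≤ 2 ^ (l2 a b n + 1) :=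
      Nat.pow_le_pow_right (by norm_num) (by omega)
    omega
  refine ⟨pre (2 ^ (l2 a b n + 1) - 1) A, ?_, C, hsize, fun x hx => ?_⟩
  · refine (df_pre O A _).trans ?_
    have h5 : Nat.log 2 (2 ^ (l2 a b n + 1) - 1) = l2 a b n := by
      have h6 : 2 ^ l2 a b n ≤ 2 ^ (l2 a b n + 1) - 1 := by
        have := Nat.one_le_two_pow (n := l2 a b n)
        rw [pow_succ]
        omega
      apply Nat.log_eq_of_pow_le_of_lt_pow h6
      have := Nat.one_le_two_pow (n := l2 a b n + 1)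
      omega
    rw [h5]
    exact h3
  · rw [hagree _ (by rw [length_tst2 hx])]
    have h5 : C.eval (orc (2 ^ (l2 a b n + 1) - 1) (pre (2 ^ (l2 a b n + 1) - 1) A)) x =
        C.eval A x := by
      apply eval_local
      intro y hy
      apply hagree
      have : K2 a b n ≤ l2 a b n := by unfold l2; omega
      omega
    rw [h5]
    exact hC2 x hx

/-- a fraction between two numbers -/
theorem exists_frac {ε c : ℝ} (hc : 1 ≤ c) (h : ε < 1 / c) :
    ∃ a b : ℕ, 0 < b ∧ (a : ℝ) * c < b ∧ ε * b < a := by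
  have h1 : max ε 0 < 1 / c := max_lt h (by positivity)
  obtain ⟨r, h2, h3⟩ := exists_rat_btwn h1
  have hr0 : (0 : ℝ) < r := lt_of_le_of_lt (le_max_right _ _) h2
  have hr : 0 < r := by exact_mod_cast hr0
  refine ⟨r.num.toNat, r.den, r.den_pos, ?_, ?_⟩
  · have h4 : ((r.num.toNat : ℕ) : ℝ) = r * r.den := by
      have h5 : ((r.num.toNat : ℕ) : ℤ) = r.num := Int.toNat_of_nonneg (Rat.num_nonneg.2 hr.le)
      have h6 : (r : ℝ) * r.den = r.num := by exact_mod_cast Rat.mul_den_eq_num r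
      rw [h6]
      exact_mod_cast h5
    rw [h4]
    have h5 : (0 : ℝ) < r.den := by exact_mod_cast r.den_pos
    have h6 : (r : ℝ) * c < 1 := by
      rw [lt_div_iff₀ (by linarith)] at h3
      exact h3
    nlinarith
  · have h4 : ((r.num.toNat : ℕ) : ℝ) = r * r.den := by
      have h5 : ((r.num.toNat : ℕ) : ℤ) = r.num := Int.toNat_of_nonneg (Rat.num_nonneg.2 hr.le)
      have h6 : (r : ℝ) * r.den = r.num := by exact_mod_cast Rat.mul_den_eq_num r
      rw [h6]
      exact_mod_cast h5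
    rw [h4]
    have h5 : (0 : ℝ) < r.den := by exact_mod_cast r.den_pos
    have h6 : ε < r := lt_of_le_of_lt (le_max_left _ _) h2
    exact mul_lt_mul_of_pos_right h6 h5

theorem low2 (hT : S_TIME2) (hC : S_CNT2) (hN : S_NUM2) {g : ℕ → ℝ} {c : ℝ} (hc : 1 ≤ c)
    (hg : ∀ᶠ n : ℕ in atTop, ∃ m ≥ n, g m ≤ (n : ℝ) ^ c) :
    ∀ᵐ O ∂randomOracle, ∀ A : Oracle, Close g O A → ∀ ε : ℝ, ε < 1 / c →
      ∃ L, InTime Lin A L ∧ ∀ᶠ n : ℕ in atTop, ¬ Small A L (2 ^ (ε * n)) n := by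
  have h0 : ∀ᵐ O ∂randomOracle, ∀ p : ℕ × ℕ, 0 < p.2 → (p.1 : ℝ) * c < p.2 →
      ∀ᶠ n : ℕ in atTop, O ∉ Bad2 p.1 p.2 c n := by
    rw [ae_all_iff]
    intro p
    by_cases h1 : 0 < p.2 ∧ (p.1 : ℝ) * c < p.2
    · filter_upwards [ae_bad2 hC hN h1.1 hc h1.2] with O hO _ _
      exact hO
    · exact Eventually.of_forall fun O h2 h3 => absurd ⟨h2, h3⟩ h1
  filter_upwards [h0] with O hO A hA ε hε
  obtain ⟨a, b, hb, hab, hεa⟩ := exists_frac hc hε
  refine ⟨LL2 a b A, hT a b A hb, ?_⟩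
  have h1 := low_ab hg (hO (a, b) hb hab) hA
  -- the exponents
  have h2 : ∀ᶠ n : ℕ in atTop, ε * n ≤ ((a * n / b : ℕ) : ℝ) := by
    obtain ⟨m, hm⟩ := exists_nat_gt ((b : ℝ) / (a - ε * b))
    filter_upwards [eventually_ge_atTop m] with n hn
    have hbR : (0 : ℝ) < b := by exact_mod_cast hb
    have h3 : 0 < (a : ℝ) - ε * b := by linarith
    have h4 : (b : ℝ) < n * (a - ε * b) := by
      rw [div_lt_iff₀ h3] at hm
      have : (m : ℝ) ≤ n := by exact_mod_cast hn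
      nlinarith
    have h5 : ((a * n : ℕ) : ℝ) < b * (((a * n / b : ℕ) : ℝ) + 1) := by
      exact_mod_cast Nat.lt_mul_div_succ (a * n) hb
    push_cast at h5
    have h6 : b * (ε * n) < b * ((a * n / b : ℕ) : ℝ) := by nlinarith
    exact (lt_of_mul_lt_mul_left h6 hbR.le).le
  filter_upwards [h1, h2] with n h3 h4
  rintro ⟨C, hC1, hC2⟩
  refine h3 C ?_ hC2
  have h5 : (C.size : ℝ) ≤ ((2 : ℝ) ^ (a * n / b : ℕ)) := by
    refine hC1.le.trans ?_
    rw [← Real.rpow_natCast]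
    exact Real.rpow_le_rpow_of_exponent_le (by norm_num) h4
  unfold K2
  exact_mod_cast h5

end Pool.Agent.W912.EC
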